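import Pool.Agent.H482R3.EA.Stm

/-!
# EA, task SEM2: admissible prolongations are syllables (helper966)
-/

set_option autoImplicit false
set_option linter.unusedSectionVars false

namespace Pool.Agent.H966R4.EA

open Pool.Agent.H482R3.EA

/-- uniqueness of the meeting point -/
theorem uni (S : Sys) (s : St S) (l : S.Ln) (q q' : S.P) (hl : ¬ InD S l s)
    (hq : S.I q l) (nq : Near S q s) (hq' : S.I q' l) (nq' : Near S q' s) : q = q' := by
  cases s with
  | none => exact nq.elim
  | ln m => exact S.G1 l m q q' hl hq hq' nq nq'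
  | pt r =>
    obtain ⟨m, hm, hqm⟩ := nq
    obtain ⟨m', hm', hqm'⟩ := nq'
    have hlm : l ≠ m := fun e => hl (by rw [e]; exact hm)
    have hlm' : l ≠ m' := fun e => hl (by rw [e]; exact hm')
    by_cases e : m = m'
    · subst e
      exact S.G1 l m q q' hlm hq hq' hqm hqm'
    · have e1 := S.G2 l m m' q r q' hlm e hlm'.symm hq hqm hm hm' hqm' hq'
      exact absurd (e1 ▸ hq : S.I r l) hl

/-- every element of the free group is the value of a word over `ℕ` -/
theorem wordF (hX : S_XX) (hV : S_EV) (k : ℕ) (hk : 0 < k) (y : FreeGroup (Fin k)) :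
    ∃ y0 : W ℕ, evF k y0 = y := by
  have hev := hV ℕ (FreeGroup (Fin k)) inferInstance (fun r => xx k ((r % k : ℕ) : ℤ))
  have hof : ∀ x : Fin k, ∃ y0 : W ℕ, evF k y0 = FreeGroup.of x := by
    intro x
    refine ⟨[(x.val, true)], ?_⟩
    have h1 : evF k [(x.val, true)] = xx k ((x.val % k : ℕ) : ℤ) := by
      simp [evF, ev]
    rw [h1, Nat.mod_eq_of_lt x.2]
    exact (hX k hk).2.2 x
  refine FreeGroup.induction_on y ⟨[], rfl⟩ hof ?_ ?_
  · intro x hx
    obtain ⟨u, hu⟩ := hof x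
    refine ⟨inv u, ?_⟩
    have h1 : evF k (inv u) = (evF k u)⁻¹ := hev.2.1 u
    rw [h1, hu]
    try rfl
  · rintro x y ⟨u, hu⟩ ⟨u', hu'⟩
    refine ⟨u ++ u', ?_⟩
    have h1 : evF k (u ++ u') = evF k u * evF k u' := hev.1 u u'
    rw [h1, hu, hu']

section

variable {V Wt : Type} [DecidableEq V] [DecidableEq Wt] (c : V ⊕ Wt → V ⊕ Wt → ℕ)

theorem triv1 (hE : S_EX) (hV : S_EV) (y : W V) (v : V) :
    Triv (cV c) (y ++ inv (fil v y)) ↔ ev (gen (cV c)) y = gen (cV c) v ^ expo v y := by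
  unfold Triv
  have hev := hV V (EA (cV c)) inferInstance (gen (cV c))
  rw [hev.1, hev.2.1, (hE V inferInstance (cV c) v).2.1, mul_inv_eq_one]

theorem triv2 (hE : S_EX) (hV : S_EV) (y : W V) (v v' : V) :
    Triv (cV c) (inv (fil v y) ++ y ++ inv (fil v' y)) ↔
      ev (gen (cV c)) y = gen (cV c) v ^ expo v y * gen (cV c) v' ^ expo v' y := by
  unfold Triv
  have hev := hV V (EA (cV c)) inferInstance (gen (cV c))
  rw [hev.1, hev.1, hev.2.1, hev.2.1, (hE V inferInstance (cV c) v).2.1,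
    (hE V inferInstance (cV c) v').2.1, mul_inv_eq_one, inv_mul_eq_iff_eq_mul]

theorem xinr (hG : S_EXG) (v : V) (w : Wt) (hc : c (.inl v) (.inr w) ≠ 0)
    (C : EA (cW c) ⧸ Subgroup.zpowers (gen (cW c) w)) (g : W Wt)
    (hg : gEl c g = C.out) (n : ℤ) :
    xEA c (Sum.inr ⟨(⟨(v, w), hc⟩ : LIdx c), C⟩) (gEl c g * gen (cW c) w ^ n, v) =
      xx (c (.inl v) (.inr w)) n := by
  show xx (c (.inl v) (.inr w))
    (exg c w ((C.out : EA (cW c))⁻¹ * (gEl c g * gen (cW c) w ^ n))) = _
  rw [hg, inv_mul_cancel_left, (hG V Wt inferInstance c w).2.2 w n, if_pos rfl]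

theorem iinr (v : V) (w : Wt) (hc : c (.inl v) (.inr w) ≠ 0)
    (C : EA (cW c) ⧸ Subgroup.zpowers (gen (cW c) w)) (g : W Wt)
    (hC : (QuotientGroup.mk (gEl c g) : EA (cW c) ⧸ Subgroup.zpowers (gen (cW c) w)) = C)
    (n : ℤ) :
    IEA c (gEl c g * gen (cW c) w ^ n, v) (Sum.inr ⟨(⟨(v, w), hc⟩ : LIdx c), C⟩) := by
  refine ⟨rfl, ?_⟩
  show (QuotientGroup.mk (gEl c g * gen (cW c) w ^ n) :
    EA (cW c) ⧸ Subgroup.zpowers (gen (cW c) w)) = C
  rw [QuotientGroup.mk_mul_of_mem _ (Subgroup.zpow_mem_zpowers _ _)]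
  exact hC

end

theorem t_SEM2 (hD : S_DIC) (hM : S_DICM) (_hS : S_XS) (hX : S_XX) (hE : S_EX) (hV : S_EV)
    (hG : S_EXG) (hJ : S_SURJ) : S_SEM2 := by
  intro V Wt iV' iW' c _ h s l y hs hadm
  have hadm' : (∃ (p : PEA c) (n : ℤ), IEA c p l ∧ n ≠ 0 ∧
        ¬ Near (sysEA c h) p (stO c h s) ∧ y = xEA c l p ^ n) ∨
      (¬ InD (sysEA c h) l (stO c h s) ∧
        (∀ q : PEA c, IEA c q l → ¬ Near (sysEA c h) q (stO c h s)) ∧
        ∀ (r : PEA c) (a : ℤ), IEA c r l → y ≠ xEA c l r ^ a) ∨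
      (¬ InD (sysEA c h) l (stO c h s) ∧ ∃ q : PEA c, IEA c q l ∧
        Near (sysEA c h) q (stO c h s) ∧
        ∀ (r : PEA c) (a b : ℤ), IEA c r l → y ≠ xEA c l q ^ a * xEA c l r ^ b) := hadm
  rcases hadm' with ⟨p, n, hp, hn, hnear, hy⟩ | hrest
  · -- a point
    obtain ⟨g0, v⟩ := p
    obtain ⟨g, hg⟩ := hJ Wt (cW c) g0
    have hg' : gEl c g = g0 := hg
    subst hg'
    refine ⟨.inl (g, v, decide (0 < n), n.natAbs), ⟨by omega, ?_⟩, ?_⟩
    · rw [(hD V Wt iV' iW' c h s g v hs).1]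
      exact hnear
    · intro A ω
      have h1 : A.act ω l (xEA c l (gEl c g, v) ^ n) =
          A.act ω (Sum.inl (gEl c g) : LnEA c) (gen (cV c) v ^ n : EA (cV c)) :=
        A.act_pt ω l (Sum.inl (gEl c g) : LnEA c) ((gEl c g, v) : PEA c) n hp rfl
      rw [hy]
      refine h1.trans ?_
      have h2 : ((if decide (0 < n) = true then gen (cV c) v else (gen (cV c) v)⁻¹) ^ n.natAbs :
          EA (cV c)) = gen (cV c) v ^ n := by
        by_cases h0 : 0 < n
        · simp only [h0, decide_true, if_true]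
          rw [← zpow_natCast, Int.natAbs_of_nonneg h0.le]
        · simp only [h0, decide_false]
          rw [if_neg (by simp), ← zpow_natCast, inv_zpow', Int.ofNat_natAbs_of_nonpos (by omega),
            neg_neg]
      show A.act ω (Sum.inl (gEl c g) : LnEA c) (gen (cV c) v ^ n : EA (cV c)) =
        A.act ω (Sum.inl (gEl c g) : LnEA c)
          ((if decide (0 < n) = true then gen (cV c) v else (gen (cV c) v)⁻¹) ^ n.natAbs :
            EA (cV c))
      rw [h2]
  · rcases l with g0 | ⟨⟨⟨v, w⟩, hc⟩, C⟩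
    · -- the line `B_g`
      obtain ⟨g, hg⟩ := hJ Wt (cW c) g0
      have hg' : gEl c g = g0 := hg
      subst hg'
      obtain ⟨y0, hy0⟩ := hJ V (cV c) y
      refine ⟨.inr (.inl (g, y0)), ?_, ?_⟩
      · rcases hrest with ⟨hin, hnn, hne⟩ | ⟨hin, q, hql, hqn, hne⟩
        · obtain ⟨p, hp⟩ := h.Λ0 (Sum.inl (gEl c g))
          refine ⟨?_, Or.inl ⟨fun v => ?_, fun v => ?_⟩⟩
          · rw [(hD V Wt iV' iW' c h s g p.2 hs).2.1]
            exact hin
          · rw [(hD V Wt iV' iW' c h s g v hs).1]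
            exact hnn (gEl c g, v) rfl
          · rw [triv1 c hE hV, hy0]
            exact hne (gEl c g, v) _ rfl
        · obtain ⟨q1, v⟩ := q
          have hq1 : q1 = gEl c g := hql
          subst hq1
          refine ⟨?_, Or.inr ⟨v, ?_, ?_, fun v' _ => ?_⟩⟩
          · rw [(hD V Wt iV' iW' c h s g v hs).2.1]
            exact hin
          · rw [(hD V Wt iV' iW' c h s g v hs).1]
            exact hqn
          · rw [triv1 c hE hV, hy0]
            intro e
            refine hne (gEl c g, v) (expo v y0) 0 rfl ?_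
            have e2 : (y : EA (cV c)) = gen (cV c) v ^ expo v y0 * gen (cV c) v ^ (0 : ℤ) := by
              rw [zpow_zero, mul_one]
              exact e
            exact e2
          · rw [triv2 c hE hV, hy0]
            exact hne (gEl c g, v') _ _ rfl
      · intro A ω
        show A.act ω (Sum.inl (gEl c g) : LnEA c) y =
          A.act ω (Sum.inl (gEl c g) : LnEA c) (ev (gen (cV c)) y0 : EA (cV c))
        rw [hy0]
    · -- the line `(v, w, C)`
      have hk : 0 < c (.inl v) (.inr w) := Nat.pos_of_ne_zero hc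
      obtain ⟨g, hg⟩ := hJ Wt (cW c) (C.out : EA (cW c))
      have hg' : gEl c g = C.out := hg
      have hC : (QuotientGroup.mk (gEl c g) :
          EA (cW c) ⧸ Subgroup.zpowers (gen (cW c) w)) = C := by
        rw [hg']
        exact Quotient.out_eq' C
      obtain ⟨y0, hy0⟩ := wordF hX hV _ hk y
      have hpt : ∀ n : ℤ, IEA c (gEl c g * gen (cW c) w ^ n, v)
          (Sum.inr ⟨(⟨(v, w), hc⟩ : LIdx c), C⟩) := iinr c v w hc C g hC
      have hx : ∀ n : ℤ, xEA c (Sum.inr ⟨(⟨(v, w), hc⟩ : LIdx c), C⟩)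
          (gEl c g * gen (cW c) w ^ n, v) = xx (c (.inl v) (.inr w)) n :=
        xinr c hG v w hc C g hg'
      have hInDL : ¬ InD (sysEA c h) (Sum.inr ⟨(⟨(v, w), hc⟩ : LIdx c), C⟩ : LnEA c)
          (stO c h s) := by
        rcases hrest with ⟨hin, _⟩ | ⟨hin, _⟩
        · exact hin
        · exact hin
      have hnl : ¬ InDL c g v w s := by
        rw [(hD V Wt iV' iW' c h s g v hs).2.2 w hc, hC]
        exact hInDL
      have hmeet := hM V Wt iV' iW' c h s g v w hc hs hnl
      rw [hC] at hmeet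
      refine ⟨.inr (.inr (g, v, w, y0)), ⟨hc, hnl, ?_⟩, ?_⟩
      · rcases hrest with ⟨hin, hnn, hne⟩ | ⟨hin, q, hql, hqn, hne⟩
        · refine Or.inl ⟨?_, ?_⟩
          · rw [hmeet.1]
            rintro ⟨q, hq1, hq2⟩
            exact hnn q hq1 hq2
          · intro s' a
            rw [hy0, ← hx s']
            exact hne _ a (hpt s')
        · have hml : MeetL c g v w s := hmeet.1.2 ⟨q, hql, hqn⟩
          refine Or.inr ⟨hml, ?_⟩
          have hqj : q = ((gEl c g * gen (cW c) w ^ expo w (inv g ++ gOf s), v) : PEA c) :=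
            uni (sysEA c h) (stO c h s) (Sum.inr ⟨(⟨(v, w), hc⟩ : LIdx c), C⟩ : LnEA c)
              q _ hInDL hql hqn (hpt _) (hmeet.2 hml)
          intro s' a b
          rw [hy0, ← hx s', ← hx (expo w (inv g ++ gOf s)), ← hqj]
          exact hne _ a b (hpt s')
      · intro A ω
        have hly : lyO c (.inr (.inr (g, v, w, y0)) : Syl V Wt) =
            (⟨Sum.inr ⟨(⟨(v, w), hc⟩ : LIdx c), C⟩, y⟩ : Σ l : LnEA c, LEA c l) := by
          subst hC
          unfold lyO
          simp only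
          rw [dif_pos hc]
          have e0 : exg c w (((QuotientGroup.mk (gEl c g) :
              EA (cW c) ⧸ Subgroup.zpowers (gen (cW c) w)).out)⁻¹ * gEl c g) = 0 := by
            have h1 := (hG V Wt iW' c w).2.2 w 0
            rw [← hg', inv_mul_cancel]
            rw [zpow_zero, if_pos rfl] at h1
            exact h1
          refine Sigma.ext rfl (heq_of_eq ?_)
          show ev (fun r : ℕ => xx (c (.inl v) (.inr w)) (((r % c (.inl v) (.inr w) : ℕ) : ℤ) +
            exg c w (((QuotientGroup.mk (gEl c g) :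
              EA (cW c) ⧸ Subgroup.zpowers (gen (cW c) w)).out)⁻¹ * gEl c g))) y0 = y
          rw [e0]
          simp only [add_zero]
          exact hy0
        rw [hly]

end Pool.Agent.H966R4.EA
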